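import Pool.Agent.TH215.TM.Defs3

/-!
Basic notions for the proof that `ℂ[x, y, z, w] / (w⁴ + x³ + y³ + z³)` has no non-commutative
crepant resolution.
-/

set_option autoImplicit false

namespace Pool.Agent.TH182.NC

/-- `s · id_M` factors through a projective module. -/
def Fac (S : Type) [CommRing S] (M : Type) [AddCommGroup M] [Module S M] (s : S) : Prop :=
  ∃ (F : Type) (_ : AddCommGroup F) (_ : Module S F), Module.Projective S F ∧
    ∃ (q : M →ₗ[S] F) (p : F →ₗ[S] M), ∀ v, p (q v) = s • v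

/-- `x₀, x₁` is a weakly regular sequence on `M`. -/
def Reg2 {S : Type} [CommRing S] (x₀ x₁ : S) (M : Type) [AddCommGroup M] [Module S M] : Prop :=
  (∀ m : M, x₀ • m = 0 → m = 0) ∧ (∀ m m' : M, x₁ • m = x₀ • m' → ∃ m'' : M, m = x₀ • m'')

/-- `x₀, x₁, x₂` is a weakly regular sequence on `M`. -/
def Reg3 {S : Type} [CommRing S] (x₀ x₁ x₂ : S) (M : Type) [AddCommGroup M] [Module S M] : Prop :=
  Reg2 x₀ x₁ M ∧ ∀ m m' m'' : M, x₂ • m = x₀ • m' + x₁ • m'' → ∃ a b : M, m = x₀ • a + x₁ • b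

end Pool.Agent.TH182.NC
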