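import Pool.Agent.TH182.NC.Defs

/-!
Koszul descent: an element of `H'` which is in the image of `f : H → H'` up to powers of
`x₀, x₁, x₂` is in the image of `f`, if `x₀, x₁` is regular on `H` and `x₀, x₁, x₂` is regular on
the kernel of `f`.
-/

set_option autoImplicit false

namespace Pool.Agent.TH182.NC

section basic

variable {S : Type} [CommRing S]

theorem Reg2.hom {x₀ x₁ : S} {M : Type} [AddCommGroup M] [Module S M] (h : Reg2 x₀ x₁ M)
    (X : Type) [AddCommGroup X] [Module S X] : Reg2 x₀ x₁ (X →ₗ[S] M) := by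
  refine ⟨fun f hf => ?_, fun f g hfg => ?_⟩
  · ext v
    exact h.1 _ (by simpa using LinearMap.congr_fun hf v)
  · have h1 : ∀ v, ∃ m, f v = x₀ • m := fun v => h.2 (f v) (g v) (by
      simpa using LinearMap.congr_fun hfg v)
    choose k hk using h1
    have hinj : ∀ a b : M, x₀ • a = x₀ • b → a = b := fun a b hab => by
      rw [← sub_eq_zero]
      exact h.1 _ (by rw [smul_sub, hab, sub_self])
    refine ⟨{ toFun := k, map_add' := fun a b => ?_, map_smul' := fun r a => ?_ }, ?_⟩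
    · apply hinj
      rw [smul_add, ← hk, ← hk, ← hk, map_add]
    · apply hinj
      rw [← hk, map_smul, hk, RingHom.id_apply, smul_comm]
    · ext v
      exact hk v

theorem Reg2.addHom {x₀ x₁ : S} {M : Type} [AddCommGroup M] [Module S M] (h : Reg2 x₀ x₁ M)
    (X : Type) [AddCommGroup X] : Reg2 x₀ x₁ (X →+ M) := by
  refine ⟨fun f hf => ?_, fun f g hfg => ?_⟩
  · ext v
    exact h.1 _ (by simpa using DFunLike.congr_fun hf v)
  · have h1 : ∀ v, ∃ m, f v = x₀ • m := fun v => h.2 (f v) (g v) (by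
      simpa using DFunLike.congr_fun hfg v)
    choose k hk using h1
    have hinj : ∀ a b : M, x₀ • a = x₀ • b → a = b := fun a b hab => by
      rw [← sub_eq_zero]
      exact h.1 _ (by rw [smul_sub, hab, sub_self])
    refine ⟨AddMonoidHom.mk' k fun a b => ?_, ?_⟩
    · apply hinj
      rw [smul_add, ← hk, ← hk, ← hk, map_add]
    · ext v
      exact hk v

theorem Reg2.of_equiv {x₀ x₁ : S} {M N : Type} [AddCommGroup M] [Module S M] [AddCommGroup N]
    [Module S N] (h : Reg2 x₀ x₁ M) (e : N ≃ₗ[S] M) : Reg2 x₀ x₁ N := by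
  refine ⟨fun v hv => ?_, fun v w hvw => ?_⟩
  · have := h.1 (e v) (by rw [← map_smul, hv, map_zero])
    simpa using this
  · obtain ⟨m, hm⟩ := h.2 (e v) (e w) (by rw [← map_smul, hvw, map_smul])
    refine ⟨e.symm m, ?_⟩
    apply e.injective
    rw [hm, map_smul, e.apply_symm_apply]

theorem Reg3.of_retract {x₀ x₁ x₂ : S} {M N : Type} [AddCommGroup M] [Module S M]
    [AddCommGroup N] [Module S N] (h : Reg3 x₀ x₁ x₂ M) (i : N →ₗ[S] M) (p : M →ₗ[S] N)
    (hip : ∀ v, p (i v) = v) : Reg3 x₀ x₁ x₂ N := by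
  obtain ⟨⟨h1, h2⟩, h3⟩ := h
  refine ⟨⟨fun v hv => ?_, fun v w hvw => ?_⟩, fun u v w huvw => ?_⟩
  · have := h1 (i v) (by rw [← map_smul, hv, map_zero])
    rw [← hip v, this, map_zero]
  · obtain ⟨m, hm⟩ := h2 (i v) (i w) (by rw [← map_smul, hvw, map_smul])
    refine ⟨p m, ?_⟩
    rw [← hip v, hm, map_smul]
  · obtain ⟨a, b, hm⟩ := h3 (i u) (i v) (i w) (by rw [← map_smul, huvw, map_add, map_smul, map_smul])
    refine ⟨p a, p b, ?_⟩
    rw [← hip u, hm, map_add, map_smul, map_smul]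

theorem Reg3.of_equiv {x₀ x₁ x₂ : S} {M N : Type} [AddCommGroup M] [Module S M]
    [AddCommGroup N] [Module S N] (h : Reg3 x₀ x₁ x₂ M) (e : N ≃ₗ[S] M) : Reg3 x₀ x₁ x₂ N :=
  h.of_retract e.toLinearMap e.symm.toLinearMap (fun v => e.symm_apply_apply v)

/-- **Koszul descent.** -/
theorem descent (x : Fin 3 → S) {H : Type} [AddCommGroup H] [Module S H]
    (hH : Reg2 (x 0) (x 1) H) (K : Submodule S H) (hK : Reg3 (x 0) (x 1) (x 2) K)
    (c : Fin 3 → H) (hc : ∀ i j, x i • c j - x j • c i ∈ K) :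
    ∃ h : H, ∀ i, c i - x i • h ∈ K := by
  obtain ⟨⟨hK1, hK2⟩, hK3⟩ := hK
  have hinj : ∀ a b : H, x 0 • a = x 0 • b → a = b := fun a b hab => by
    rw [← sub_eq_zero]
    exact hH.1 _ (by rw [smul_sub, hab, sub_self])
  obtain ⟨a, b, hab⟩ := hK3 ⟨_, hc 0 1⟩ ⟨-(x 1 • c 2 - x 2 • c 1), K.neg_mem (hc 1 2)⟩
    ⟨x 0 • c 2 - x 2 • c 0, hc 0 2⟩ (by
      apply Subtype.ext
      simp only [Submodule.coe_smul, Submodule.coe_add]
      module)
  have hab' : x 0 • c 1 - x 1 • c 0 = x 0 • (a : H) + x 1 • (b : H) := congrArg Subtype.val hab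
  obtain ⟨h, hh⟩ := hH.2 (c 0 + b) (c 1 - a) (by
    rw [smul_add, smul_sub, sub_eq_iff_eq_add.1 hab']
    abel)
  have e0 : c 0 - x 0 • h = -(b : H) := by
    rw [← hh]
    abel
  have e1 : c 1 - x 1 • h = (a : H) := by
    have : c 1 - a = x 1 • h := by
      apply hinj
      rw [smul_comm (x 0) (x 1) h, ← hh, smul_add, smul_sub, sub_eq_iff_eq_add.1 hab']
      abel
    rw [← this]
    abel
  have f0 : x 0 • (c 2 - x 2 • h) = (x 0 • c 2 - x 2 • c 0) + x 2 • -(b : H) := by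
    rw [← e0]
    module
  have f1 : x 1 • (c 2 - x 2 • h) = (x 1 • c 2 - x 2 • c 1) + x 2 • (a : H) := by
    rw [← e1]
    module
  have g0 : x 0 • (c 2 - x 2 • h) ∈ K := by
    rw [f0]
    exact K.add_mem (hc 0 2) (K.smul_mem _ (K.neg_mem b.2))
  have g1 : x 1 • (c 2 - x 2 • h) ∈ K := by
    rw [f1]
    exact K.add_mem (hc 1 2) (K.smul_mem _ a.2)
  obtain ⟨m, hm⟩ := hK2 ⟨_, g0⟩ ⟨_, g1⟩ (by
    apply Subtype.ext
    simp only [Submodule.coe_smul]
    rw [smul_comm])
  have hm' : x 0 • (c 2 - x 2 • h) = x 0 • (m : H) := congrArg Subtype.val hm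
  have e2 : c 2 - x 2 • h = (m : H) := hinj _ _ hm'
  refine ⟨h, fun i => ?_⟩
  fin_cases i
  · change c 0 - x 0 • h ∈ K
    rw [e0]
    exact K.neg_mem b.2
  · change c 1 - x 1 • h ∈ K
    rw [e1]
    exact a.2
  · change c 2 - x 2 • h ∈ K
    rw [e2]
    exact m.2

/-- saturation: an element which is in `J` up to powers of `x₀`, `x₁`, `x₂` is in `J`, if this is
true for the first powers. -/
theorem saturate (x : Fin 3 → S) {H : Type} [AddCommGroup H] [Module S H] (J : Set H)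
    (hsm : ∀ (a : S) (t : H), t ∈ J → a • t ∈ J)
    (hJ : ∀ t : H, (∀ i, x i • t ∈ J) → t ∈ J) (s : Fin 3 → S) (n : Fin 3 → ℕ) (t : H)
    (ht : ∀ i, (s i * x i ^ n i) • t ∈ J) : (s 0 * s 1 * s 2) • t ∈ J := by
  have key : ∀ (N : ℕ) (a : Fin 3 → ℕ), n 0 + n 1 + n 2 ≤ a 0 + a 1 + a 2 + N →
      (x 0 ^ a 0 * x 1 ^ a 1 * x 2 ^ a 2) • (s 0 * s 1 * s 2) • t ∈ J := by
    intro N
    induction N with
    | zero =>
      intro a ha
      have h1 : n 0 ≤ a 0 ∨ n 1 ≤ a 1 ∨ n 2 ≤ a 2 := by omega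
      rcases h1 with h1 | h1 | h1
      · obtain ⟨d, hd⟩ := Nat.exists_eq_add_of_le h1
        rw [smul_smul, hd, show x 0 ^ (n 0 + d) * x 1 ^ a 1 * x 2 ^ a 2 * (s 0 * s 1 * s 2) =
          (x 0 ^ d * x 1 ^ a 1 * x 2 ^ a 2 * (s 1 * s 2)) * (s 0 * x 0 ^ n 0) by ring, mul_smul]
        exact hsm _ _ (ht 0)
      · obtain ⟨d, hd⟩ := Nat.exists_eq_add_of_le h1
        rw [smul_smul, hd, show x 0 ^ a 0 * x 1 ^ (n 1 + d) * x 2 ^ a 2 * (s 0 * s 1 * s 2) =
          (x 0 ^ a 0 * x 1 ^ d * x 2 ^ a 2 * (s 0 * s 2)) * (s 1 * x 1 ^ n 1) by ring, mul_smul]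
        exact hsm _ _ (ht 1)
      · obtain ⟨d, hd⟩ := Nat.exists_eq_add_of_le h1
        rw [smul_smul, hd, show x 0 ^ a 0 * x 1 ^ a 1 * x 2 ^ (n 2 + d) * (s 0 * s 1 * s 2) =
          (x 0 ^ a 0 * x 1 ^ a 1 * x 2 ^ d * (s 0 * s 1)) * (s 2 * x 2 ^ n 2) by ring, mul_smul]
        exact hsm _ _ (ht 2)
    | succ N ih =>
      intro a ha
      apply hJ
      intro i
      fin_cases i
      · have := ih ![a 0 + 1, a 1, a 2] (by simp; omega)
        simp only [Matrix.cons_val] at this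
        change x 0 • _ ∈ J
        rw [smul_smul]
        rwa [show x 0 * (x 0 ^ a 0 * x 1 ^ a 1 * x 2 ^ a 2) =
          x 0 ^ (a 0 + 1) * x 1 ^ a 1 * x 2 ^ a 2 by ring]
      · have := ih ![a 0, a 1 + 1, a 2] (by simp; omega)
        simp only [Matrix.cons_val] at this
        change x 1 • _ ∈ J
        rw [smul_smul]
        rwa [show x 1 * (x 0 ^ a 0 * x 1 ^ a 1 * x 2 ^ a 2) =
          x 0 ^ a 0 * x 1 ^ (a 1 + 1) * x 2 ^ a 2 by ring]
      · have := ih ![a 0, a 1, a 2 + 1] (by simp; omega)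
        simp only [Matrix.cons_val] at this
        change x 2 • _ ∈ J
        rw [smul_smul]
        rwa [show x 2 * (x 0 ^ a 0 * x 1 ^ a 1 * x 2 ^ a 2) =
          x 0 ^ a 0 * x 1 ^ a 1 * x 2 ^ (a 2 + 1) by ring]
  have := key (n 0 + n 1 + n 2) 0 (by simp)
  simpa using this

/-- An element of `H'` which is in the image of `f : H → H'` up to powers of `x₀, x₁, x₂` is in
the image of `f`. -/
theorem mem_range_of_powers (x : Fin 3 → S) {H H' : Type} [AddCommGroup H] [Module S H]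
    [AddCommGroup H'] [Module S H'] (f : H →ₗ[S] H') (hH : Reg2 (x 0) (x 1) H)
    (hK : Reg3 (x 0) (x 1) (x 2) (LinearMap.ker f)) (hH' : ∀ t : H', x 0 • t = 0 → t = 0)
    (s : Fin 3 → S) (n : Fin 3 → ℕ) (t : H')
    (ht : ∀ i, (s i * x i ^ n i) • t ∈ LinearMap.range f) :
    (s 0 * s 1 * s 2) • t ∈ LinearMap.range f := by
  refine saturate x (LinearMap.range f : Set H') (fun a t ht => (LinearMap.range f).smul_mem a ht)
    (fun t ht => ?_) s n t ht
  choose c hc using ht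
  obtain ⟨h, hh⟩ := descent x hH (LinearMap.ker f) hK c (fun i j => by
    rw [LinearMap.mem_ker, map_sub, map_smul, map_smul, hc, hc, smul_comm, sub_self])
  refine ⟨h, ?_⟩
  have h0 := hh 0
  rw [LinearMap.mem_ker, map_sub, map_smul, hc, ← smul_sub] at h0
  exact (sub_eq_zero.1 (hH' _ h0)).symm

end basic

section ext

variable {R : Type} [CommRing R]

/-- `Ext¹_R(M, M)` is killed by `s₀ s₁ s₂` -/
theorem ext_killed (x s : Fin 3 → R) (n : Fin 3 → ℕ) (M : Type) [AddCommGroup M] [Module R M]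
    (hM : Reg2 (x 0) (x 1) M) (hE : Reg3 (x 0) (x 1) (x 2) (Module.End R M))
    (hF : ∀ i, Fac R M (s i * x i ^ n i)) (P : Type) [AddCommGroup P] [Module R P]
    (π : P →ₗ[R] M) (hπ : Function.Surjective π) (ψ : LinearMap.ker π →ₗ[R] M) :
    ∃ Ψ : P →ₗ[R] M, ∀ g : LinearMap.ker π, Ψ g = (s 0 * s 1 * s 2) • ψ g := by
  let f : (P →ₗ[R] M) →ₗ[R] (LinearMap.ker π →ₗ[R] M) :=
    { toFun := fun Ψ => Ψ ∘ₗ (LinearMap.ker π).subtype
      map_add' := fun a b => rfl
      map_smul' := fun a b => rfl }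
  have hf : ∀ Ψ g, f Ψ g = Ψ g := fun _ _ => rfl
  -- the kernel of `f` is `End_R(M)`
  let e : LinearMap.ker f ≃ₗ[R] Module.End R M := LinearEquiv.symm
    { toFun := fun u => ⟨u ∘ₗ π, by
        rw [LinearMap.mem_ker]
        ext g
        rw [hf, LinearMap.comp_apply, LinearMap.mem_ker.1 g.2, map_zero, LinearMap.zero_apply]⟩
      map_add' := fun a b => rfl
      map_smul' := fun a b => rfl
      invFun := fun u => (LinearMap.ker π).liftQ u.1 (by
          intro g hg
          have := LinearMap.congr_fun (LinearMap.mem_ker.1 u.2) ⟨g, hg⟩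
          exact this) ∘ₗ (π.quotKerEquivOfSurjective hπ).symm.toLinearMap
      left_inv := fun u => by
        ext m
        obtain ⟨p, rfl⟩ := hπ m
        have h1 : (π.quotKerEquivOfSurjective hπ).symm (π p) = Submodule.Quotient.mk p := by
          rw [LinearEquiv.symm_apply_eq]
          rfl
        simp only [LinearMap.comp_apply, LinearEquiv.coe_coe, h1]
        rfl
      right_inv := fun u => by
        apply Subtype.ext
        ext p
        have h1 : (π.quotKerEquivOfSurjective hπ).symm (π p) = Submodule.Quotient.mk p := by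
          rw [LinearEquiv.symm_apply_eq]
          rfl
        simp only [LinearMap.comp_apply, LinearEquiv.coe_coe, h1]
        rfl }
  obtain ⟨Ψ, hΨ⟩ := mem_range_of_powers x f (hM.hom P) (hE.of_equiv e)
    (fun t ht => (hM.hom (LinearMap.ker π)).1 t ht) s n ψ (fun i => by
      obtain ⟨F, _, _, _, q, p, hpq⟩ := hF i
      obtain ⟨p', hp'⟩ := Module.projective_lifting_property π p hπ
      have hp'' : ∀ y, π (p' y) = p y := fun y => LinearMap.congr_fun hp' y
      let ρ0 : P →ₗ[R] P := (s i * x i ^ n i) • LinearMap.id - p' ∘ₗ q ∘ₗ π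
      have hρ0 : ∀ y, ρ0 y ∈ LinearMap.ker π := by
        intro y
        rw [LinearMap.mem_ker]
        simp only [ρ0, LinearMap.sub_apply, LinearMap.smul_apply, LinearMap.id_apply,
          LinearMap.comp_apply, map_sub, map_smul, hp'', hpq, sub_self]
      let ρ : P →ₗ[R] LinearMap.ker π := ρ0.codRestrict _ hρ0
      refine ⟨ψ ∘ₗ ρ, ?_⟩
      ext g
      have h1 : ρ g = (s i * x i ^ n i) • g := by
        apply Subtype.ext
        change ρ0 g = (s i * x i ^ n i) • (g : P)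
        simp only [ρ0, LinearMap.sub_apply, LinearMap.smul_apply, LinearMap.id_apply,
          LinearMap.comp_apply, LinearMap.mem_ker.1 g.2, map_zero, sub_zero]
      rw [hf, LinearMap.comp_apply, h1, map_smul, LinearMap.smul_apply])
  refine ⟨Ψ, fun g => ?_⟩
  rw [← hf, hΨ, LinearMap.smul_apply]

end ext

end Pool.Agent.TH182.NC
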