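import Pool.Agent.TH182.NC.Tau
import Pool.Agent.TH515.J1022
import Pool.Agent.TH215.NC.L1
import Pool.Agent.TH480.J295

/-!
`ℂ[x, y, z, w] / (w⁴ + x³ + y³ + z³)` has no non-commutative crepant resolution.
-/

set_option autoImplicit false

namespace Pool.Agent.TH182.NC

open Pool.Agent.TH215.TM Pool.Agent.W506.Hilb CategoryTheory

theorem pdLT_two_of_syzygy {S : Type} [CommRing S]
    (hgl : ∀ M : ModuleCat.{0} S, HasProjectiveDimensionLT M 4)
    (M Q₀ Q₁ : Type) [AddCommGroup M] [Module S M] [AddCommGroup Q₀] [Module S Q₀]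
    [AddCommGroup Q₁] [Module S Q₁] [Module.Projective S Q₀]
    [Module.Projective S Q₁] (ι : M →ₗ[S] Q₀) (d : Q₀ →ₗ[S] Q₁)
    (hι : Function.Injective ι) (hex : LinearMap.range ι = LinearMap.ker d) : PdLT S M 2 := by
  have h1 : PdLT S (Q₁ ⧸ LinearMap.range d) 4 := hgl _
  have h2 : PdLT S (LinearMap.range d) 3 :=
    pdLT_left (LinearMap.range d).subtype (LinearMap.range d).mkQ (Submodule.injective_subtype _)
      (Submodule.mkQ_surjective _) (LinearMap.exact_subtype_mkQ _)
      (pdLT_mono (by omega) (pdLT_one_of_projective inferInstance)) h1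
  refine pdLT_left ι d.rangeRestrict hι d.surjective_rangeRestrict ?_
    (pdLT_mono (by omega) (pdLT_one_of_projective inferInstance)) h2
  intro y
  have e : d.rangeRestrict y = 0 ↔ y ∈ LinearMap.range ι := by
    rw [hex, LinearMap.mem_ker]
    exact ⟨fun h => congrArg Subtype.val h, fun h => Subtype.ext h⟩
  rw [e]
  rfl

section

variable (M : Type) [AddCommGroup M] [Module RR M] [Module S3 M] [IsScalarTower S3 RR M]

theorem Reg2.toRR (h : Reg2 (MvPolynomial.X 0 : S3) (MvPolynomial.X 1) M) :
    Reg2 (xR 0) (xR 1) M := by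
  have e : ∀ (i : Fin 3) (m : M), xR i • m = (MvPolynomial.X i : S3) • m := fun i m =>
    algebraMap_smul RR (MvPolynomial.X i : S3) m
  simpa only [Reg2, e] using h

theorem Reg3.toRR (h : Reg3 (MvPolynomial.X 0 : S3) (MvPolynomial.X 1) (MvPolynomial.X 2) M) :
    Reg3 (xR 0) (xR 1) (xR 2) M := by
  have e : ∀ (i : Fin 3) (m : M), xR i • m = (MvPolynomial.X i : S3) • m := fun i m =>
    algebraMap_smul RR (MvPolynomial.X i : S3) m
  simpa only [Reg3, Reg2, e] using h

end

/-- **No non-commutative crepant resolution.** For a nonzero finitely generated reflexive module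
`M` over `RR` with `End(M)` maximal Cohen-Macaulay, the global dimension of `End(M)` at the origin
is infinite. -/
theorem no_nccr (M : Type) [AddCommGroup M] [Module RR M] [Nontrivial M] [Module.Finite RR M]
    [Module.IsReflexive RR M] (hE : IsCM RR (Module.End RR M)) (d : ℕ) :
    ¬ ∀ X : ModuleCat.{0} (Module.End (Localization.AtPrime J3)
      (LocalizedModule J3.primeCompl M)), HasProjectiveDimensionLT X d := by
  have hdom : IsDomain RR := Pool.Agent.TH480.J295.isDomain_RR
  let _ : Module S3 M := Module.compHom M (algebraMap S3 RR)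
  have _ : IsScalarTower S3 RR M := IsScalarTower.of_compHom S3 RR M
  have hfin : Module.Finite S3 M := Module.Finite.trans RR M
  have hfree : Module.Free S3 RR := Module.Free.of_basis
    (AdjoinRoot.powerBasis' (Polynomial.monic_X_pow_add_C g3 (by norm_num))).basis
  obtain ⟨a, b, ι, δ, hι, hex⟩ := exists_syzygy RR M
  have hex' : LinearMap.range (ι.restrictScalars S3) = LinearMap.ker (δ.restrictScalars S3) := by
    ext v
    have := SetLike.ext_iff.1 hex v
    exact this
  -- regularity of `x, y` on `M` and of `x, y, z` on `End(M)`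
  have hM : Reg2 (MvPolynomial.X 0 : S3) (MvPolynomial.X 1) M :=
    Reg2.of_exact (reg3_projective (Fin a → RR)).1 (reg3_projective (Fin b → RR)).1
      (ι.restrictScalars S3) (δ.restrictScalars S3) hι hex'
  have hproj : Module.Projective S3 (Module.End RR M) := projective_S3 (Module.End RR M) hE
  have hK0 := reg3_projective (Module.End RR M)
  have hK : Reg3 (MvPolynomial.X 0 : S3) (MvPolynomial.X 1) (MvPolynomial.X 2)
      (Subalgebra.centralizer S3 ({phiN M} : Set (Module.End S3 M))) :=
    hK0.of_equiv (endEquiv M).symm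
  -- projective dimension
  have hpd : PdLT S3 M 2 := pdLT_two_of_syzygy gl_S3 M (Fin a → RR) (Fin b → RR)
    (ι.restrictScalars S3) (δ.restrictScalars S3) hι hex'
  -- factorizations
  have hfac := fun i : Fin 3 => Pool.Agent.TH515.J1022.fac gl_S3 M (Fin a → RR) (Fin b → RR)
    (ι.restrictScalars S3) (δ.restrictScalars S3) hι hex' (MvPolynomial.X i : S3)
  choose s hs1 n hF using hfac
  have hs : ∀ i, s i ∈ W := by
    intro i
    have h1 : s i - 1 ∈ mS := by
      refine Ideal.span_mono ?_ (hs1 i)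
      rintro _ rfl
      exact ⟨i, rfl⟩
    rw [mem_mS, map_sub, map_one] at h1
    rw [mem_W, sub_eq_zero.1 h1]
    exact one_ne_zero
  -- traces
  have hφ := phiN_pow_four M
  have htr : ∀ i, ∃ c : Module.End S3 M, tr4 (phiN M) c =
      (s i * MvPolynomial.X i ^ (n i + 2) : S3) • 1 := by
    intro i
    obtain ⟨c, hc⟩ := trace_of_fac M (phiN M) hφ _ (hF i) i
    exact ⟨c, by rw [hc, pow_add, mul_assoc]⟩
  have hrig := rig M (phiN M) hM hK s (fun i => n i + 2) htr
  obtain ⟨N, hN1, hN2⟩ := exists_nabla M (phiN M) hφ hM hK s n hF (s 0 * s 1 * s 2) hrig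
  have hsss : s 0 * s 1 * s 2 ∈ W := W.mul_mem (W.mul_mem (hs 0) (hs 1)) (hs 2)
  obtain ⟨t, ht, τ, ρ, h1, h2, h3⟩ := exists_tau_rho M (phiN M) _ (W.mul_mem hsss hsss) N hN1 hN2
  obtain ⟨u, hu, c, hc⟩ := Pool.Agent.TH73.NCchain.chain' M (phiN M) hφ W ⟨_, hsss, hrig⟩ τ ρ t ht
    h1 h2 h3
  -- the self-extensions of `M`
  obtain ⟨m, q, hq⟩ := Module.Finite.exists_fin' RR M
  have hext : ∀ h : LinearMap.ker q →ₗ[RR] M, ∃ t ∉ J3, ∃ H : (Fin m → RR) →ₗ[RR] M,
      ∀ v : LinearMap.ker q, H v = t • h v := by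
    intro h
    obtain ⟨H, hH⟩ := ext_killed xR (fun i => algebraMap S3 RR (s i * s i))
      (fun i => n i + 2 + n i) M (Reg2.toRR M hM) (Reg3.toRR _ hK0) (fun i => by
        obtain ⟨c, hc⟩ := htr i
        have h5 := Pool.Agent.TH215.NC.fac_RR M c _ _ hc (hF i)
        have h6 : algebraMap S3 RR (s i * MvPolynomial.X i ^ (n i + 2) *
            (s i * MvPolynomial.X i ^ n i)) =
            algebraMap S3 RR (s i * s i) * xR i ^ (n i + 2 + n i) := by
          have h7 : xR i = algebraMap S3 RR (MvPolynomial.X i) := rfl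
          rw [h7, ← map_pow, ← map_mul]
          congr 1
          ring
        rw [h6] at h5
        exact h5) (Fin m → RR) q hq h
    refine ⟨_, ?_, H, hH⟩
    rw [← map_mul, ← map_mul]
    refine Pool.Agent.TH215.NC.algebraMap_notMem ?_
    rw [mem_mS]
    exact W.mul_mem (W.mul_mem (W.mul_mem (hs 0) (hs 0)) (W.mul_mem (hs 1) (hs 1)))
      (W.mul_mem (hs 2) (hs 2))
  have hnt : Nontrivial (LocalizedModule J3.primeCompl M) := by
    refine Pool.Agent.TH215.NC.nontrivial_loc M fun r v hrv => ?_
    by_cases hr : r = 0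
    · exact Or.inl hr
    · right
      apply hι
      rw [map_zero]
      funext i
      have h5 := congrFun (congrArg ι hrv) i
      rw [map_smul, map_zero] at h5
      exact (mul_eq_zero.1 h5).resolve_left hr
  exact Pool.Agent.TH215.NC.not_gl M ⟨u, fun h => hu (mem_mS.1 h), c, hc⟩ hpd q hq hext d

end Pool.Agent.TH182.NC
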