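import Pool.Agent.TH182.NC.Koszul

/-!
Regular sequences: `x, y, z` on projective modules over `ℂ[x, y, z]`, `x, y` on reflexive modules.
-/

set_option autoImplicit false

namespace Pool.Agent.TH182.NC

open Pool.Agent.TH215.TM MvPolynomial

section flat

variable {S : Type} [CommRing S]

theorem Reg3.flat {x₀ x₁ x₂ : S} (h : Reg3 x₀ x₁ x₂ S) (K : Type) [AddCommGroup K] [Module S K]
    [Module.Flat S K] : Reg3 x₀ x₁ x₂ K := by
  obtain ⟨⟨h1, h2⟩, h3⟩ := h
  refine ⟨⟨fun m hm => ?_, fun m m' hm => ?_⟩, fun m m' m'' hm => ?_⟩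
  · have e1 : ∑ i, (![x₀] : Fin 1 → S) i • (![m] : Fin 1 → K) i = 0 := by simpa using hm
    obtain ⟨k, a, y, e2, e3⟩ := Module.Flat.isTrivialRelation_of_sum_smul_eq_zero e1
    have e4 := e2 0
    simp only [Matrix.cons_val_zero] at e4
    rw [e4]
    refine Finset.sum_eq_zero fun j _ => ?_
    have e5 := e3 j
    simp only [Finset.univ_unique, Fin.default_eq_zero, Finset.sum_singleton,
      Matrix.cons_val_zero] at e5
    rw [h1 (a 0 j) (by simpa using e5), zero_smul]
  · have e1 : ∑ i, (![x₁, -x₀] : Fin 2 → S) i • (![m, m'] : Fin 2 → K) i = 0 := by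
      rw [Fin.sum_univ_two]
      simp [hm]
    obtain ⟨k, a, y, e2, e3⟩ := Module.Flat.isTrivialRelation_of_sum_smul_eq_zero e1
    have e4 : ∀ j, ∃ r : S, a 0 j = x₀ • r := by
      intro j
      have e5 := e3 j
      rw [Fin.sum_univ_two] at e5
      simp only [Matrix.cons_val_zero, Matrix.cons_val_one] at e5
      exact h2 (a 0 j) (a 1 j) (by simp only [smul_eq_mul]; linear_combination e5)
    choose r hr using e4
    refine ⟨∑ j, r j • y j, ?_⟩
    have e6 := e2 0
    simp only [Matrix.cons_val_zero] at e6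
    rw [e6, Finset.smul_sum]
    exact Finset.sum_congr rfl fun j _ => by rw [hr j, smul_smul, smul_eq_mul]
  · have e1 : ∑ i, (![x₂, -x₀, -x₁] : Fin 3 → S) i • (![m, m', m''] : Fin 3 → K) i = 0 := by
      rw [Fin.sum_univ_three]
      simp [hm]
    obtain ⟨k, a, y, e2, e3⟩ := Module.Flat.isTrivialRelation_of_sum_smul_eq_zero e1
    have e4 : ∀ j, ∃ r t : S, a 0 j = x₀ • r + x₁ • t := by
      intro j
      have e5 := e3 j
      rw [Fin.sum_univ_three] at e5
      simp only [Matrix.cons_val_zero, Matrix.cons_val_one, Matrix.cons_val] at e5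
      exact h3 (a 0 j) (a 1 j) (a 2 j) (by simp only [smul_eq_mul]; linear_combination e5)
    choose r t hr using e4
    refine ⟨∑ j, r j • y j, ∑ j, t j • y j, ?_⟩
    have e6 := e2 0
    simp only [Matrix.cons_val_zero] at e6
    rw [e6, Finset.smul_sum, Finset.smul_sum, ← Finset.sum_add_distrib]
    exact Finset.sum_congr rfl fun j _ => by
      rw [hr j, add_smul, smul_smul, smul_smul, smul_eq_mul, smul_eq_mul]

theorem Reg2.flat {x₀ x₁ : S} (h : Reg2 x₀ x₁ S) (K : Type) [AddCommGroup K] [Module S K]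
    [Module.Flat S K] : Reg2 x₀ x₁ K := by
  obtain ⟨h1, h2⟩ := h
  refine ⟨fun m hm => ?_, fun m m' hm => ?_⟩
  · have e1 : ∑ i, (![x₀] : Fin 1 → S) i • (![m] : Fin 1 → K) i = 0 := by simpa using hm
    obtain ⟨k, a, y, e2, e3⟩ := Module.Flat.isTrivialRelation_of_sum_smul_eq_zero e1
    have e4 := e2 0
    simp only [Matrix.cons_val_zero] at e4
    rw [e4]
    refine Finset.sum_eq_zero fun j _ => ?_
    have e5 := e3 j
    simp only [Finset.univ_unique, Fin.default_eq_zero, Finset.sum_singleton,
      Matrix.cons_val_zero] at e5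
    rw [h1 (a 0 j) (by simpa using e5), zero_smul]
  · have e1 : ∑ i, (![x₁, -x₀] : Fin 2 → S) i • (![m, m'] : Fin 2 → K) i = 0 := by
      rw [Fin.sum_univ_two]
      simp [hm]
    obtain ⟨k, a, y, e2, e3⟩ := Module.Flat.isTrivialRelation_of_sum_smul_eq_zero e1
    have e4 : ∀ j, ∃ r : S, a 0 j = x₀ • r := by
      intro j
      have e5 := e3 j
      rw [Fin.sum_univ_two] at e5
      simp only [Matrix.cons_val_zero, Matrix.cons_val_one] at e5
      exact h2 (a 0 j) (a 1 j) (by simp only [smul_eq_mul]; linear_combination e5)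
    choose r hr using e4
    refine ⟨∑ j, r j • y j, ?_⟩
    have e6 := e2 0
    simp only [Matrix.cons_val_zero] at e6
    rw [e6, Finset.smul_sum]
    exact Finset.sum_congr rfl fun j _ => by rw [hr j, smul_smul, smul_eq_mul]

/-- a kernel of a map between modules with `x₀, x₁` regular -/
theorem Reg2.of_exact {x₀ x₁ : S} {M Q₀ Q₁ : Type} [AddCommGroup M] [Module S M]
    [AddCommGroup Q₀] [Module S Q₀] [AddCommGroup Q₁] [Module S Q₁] (h0 : Reg2 x₀ x₁ Q₀)
    (h1 : Reg2 x₀ x₁ Q₁) (ι : M →ₗ[S] Q₀) (d : Q₀ →ₗ[S] Q₁)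
    (hι : Function.Injective ι) (hex : LinearMap.range ι = LinearMap.ker d) : Reg2 x₀ x₁ M := by
  refine ⟨fun m hm => ?_, fun m m' hm => ?_⟩
  · apply hι
    rw [map_zero]
    exact h0.1 _ (by rw [← map_smul, hm, map_zero])
  · obtain ⟨u, hu⟩ := h0.2 (ι m) (ι m') (by rw [← map_smul, hm, map_smul])
    have hdu : d u = 0 := by
      apply h1.1
      rw [← map_smul, ← hu]
      have : ι m ∈ LinearMap.range ι := ⟨m, rfl⟩
      rw [hex] at this
      exact this
    have : u ∈ LinearMap.range ι := by rw [hex]; exact hdu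
    obtain ⟨m'', rfl⟩ := this
    refine ⟨m'', hι ?_⟩
    rw [hu, map_smul]

end flat

theorem X_dvd {b : S3} (h : ∃ r : S3, X 1 * b = X 0 * r) : ∃ r : S3, b = X 0 * r := by
  obtain ⟨r, hr⟩ := h
  have hp : Prime (X 0 : S3) := MvPolynomial.X_prime
  rcases hp.dvd_or_dvd (⟨r, hr⟩ : (X 0 : S3) ∣ X 1 * b) with h1 | h1
  · exfalso
    rw [X_dvd_X] at h1
    rcases h1 with h1 | h1 <;> simp at h1
  · exact h1

theorem mem01 {a : S3} (h : ∃ r s : S3, X 2 * a = X 0 * r + X 1 * s) :
    ∃ r s : S3, a = X 0 * r + X 1 * s := by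
  have key : ∀ b : S3, (∃ r s : S3, b = X 0 * r + X 1 * s) ↔
      ∀ ξ ∈ b.support, ∃ t ∈ ({Finsupp.single 0 1, Finsupp.single 1 1} : Set (Fin 3 →₀ ℕ)),
        t ≤ ξ := by
    intro b
    rw [← mem_ideal_span_monomial_image, Set.image_pair, Ideal.mem_span_pair]
    constructor
    · rintro ⟨r, s, h⟩
      refine ⟨r, s, ?_⟩
      rw [h, X, X]
      ring
    · rintro ⟨r, s, h⟩
      refine ⟨r, s, ?_⟩
      rw [← h, X, X]
      ring
  rw [key] at h ⊢
  intro ξ hξ
  have h1 : ξ + Finsupp.single 2 1 ∈ (X 2 * a).support := by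
    rw [mem_support_iff, mul_comm, coeff_mul_X]
    exact mem_support_iff.1 hξ
  obtain ⟨t, ht, h2⟩ := h _ h1
  refine ⟨t, ht, ?_⟩
  intro j
  have h3 := h2 j
  rcases ht with rfl | rfl
  · fin_cases j <;> simp_all
  · fin_cases j <;> simp_all

theorem reg3_S3 : Reg3 (X 0 : S3) (X 1) (X 2) S3 := by
  refine ⟨⟨fun m hm => ?_, fun m m' hm => ?_⟩, fun m m' m'' hm => ?_⟩
  · rw [smul_eq_mul, mul_eq_zero] at hm
    exact hm.resolve_left (X_ne_zero 0)
  · exact X_dvd ⟨m', hm⟩
  · exact mem01 ⟨m', m'', hm⟩

/-- `x, y, z` is regular on projective modules -/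
theorem reg3_projective (K : Type) [AddCommGroup K] [Module S3 K] [Module.Projective S3 K] :
    Reg3 (X 0 : S3) (X 1) (X 2) K := reg3_S3.flat K

section reflexive

/-- a finitely generated reflexive module is a second syzygy -/
theorem exists_syzygy (R : Type) [CommRing R] [IsNoetherianRing R] (M : Type) [AddCommGroup M]
    [Module R M] [Module.Finite R M] [Module.IsReflexive R M] :
    ∃ (a b : ℕ) (ι : M →ₗ[R] (Fin a → R)) (d : (Fin a → R) →ₗ[R] (Fin b → R)),
      Function.Injective ι ∧ LinearMap.range ι = LinearMap.ker d := by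
  -- the dual is finitely generated
  obtain ⟨n, p, hp⟩ := Module.Finite.exists_fin' R M
  have hfinD : Module.Finite R (Module.Dual R M) := by
    let f : Module.Dual R M →ₗ[R] ((Fin n → R) →ₗ[R] R) := LinearMap.lcomp R R p
    have hf : Function.Injective f := by
      intro u v huv
      ext m
      obtain ⟨y, rfl⟩ := hp m
      exact LinearMap.congr_fun huv y
    exact Module.Finite.of_injective f hf
  obtain ⟨a, e, he⟩ := Module.Finite.exists_fin' R (Module.Dual R M)
  have hfinK : Module.Finite R (LinearMap.ker e) := inferInstance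
  obtain ⟨b, k, hk⟩ := Module.Finite.exists_fin' R (LinearMap.ker e)
  -- coordinates of elements of the dual of `R^a`
  let ι : M →ₗ[R] (Fin a → R) :=
    { toFun := fun m i => e (Pi.single i 1) m
      map_add' := fun u v => by
        funext i
        simp
      map_smul' := fun r u => by
        funext i
        simp }
  let d : (Fin a → R) →ₗ[R] (Fin b → R) :=
    { toFun := fun v j => ∑ i, (k (Pi.single j 1) : Fin a → R) i * v i
      map_add' := fun u v => by
        funext j
        simp [mul_add, Finset.sum_add_distrib]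
      map_smul' := fun r u => by
        funext j
        simp only [Pi.smul_apply, smul_eq_mul, RingHom.id_apply, Finset.mul_sum]
        exact Finset.sum_congr rfl fun i _ => by ring }
  have hι : ∀ (c : Fin a → R) (m : M), ∑ i, c i * ι m i = e c m := by
    intro c m
    have h1 : c = ∑ i, c i • (Pi.single i (1 : R) : Fin a → R) :=
      ((Pi.basisFun R (Fin a)).sum_repr c).symm.trans (by simp)
    conv_rhs => rw [h1]
    rw [map_sum, LinearMap.sum_apply]
    refine Finset.sum_congr rfl fun i _ => ?_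
    rw [map_smul, LinearMap.smul_apply, smul_eq_mul]
    rfl
  refine ⟨a, b, ι, d, ?_, le_antisymm ?_ ?_⟩
  · rw [← LinearMap.ker_eq_bot, LinearMap.ker_eq_bot']
    intro m hm
    have h1 : ∀ f : Module.Dual R M, f m = 0 := by
      intro f
      obtain ⟨c, rfl⟩ := he f
      rw [← hι, hm]
      simp
    have h2 : Module.Dual.eval R M m = 0 := by
      ext f
      exact h1 f
    exact (Module.IsReflexive.bijective_dual_eval' (R := R) (M := M)).1 (by rw [h2, map_zero])
  · rintro _ ⟨m, rfl⟩
    rw [LinearMap.mem_ker]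
    funext j
    change ∑ i, (k (Pi.single j 1) : Fin a → R) i * ι m i = 0
    rw [hι, LinearMap.mem_ker.1 (k (Pi.single j 1)).2, LinearMap.zero_apply]
  · intro v hv
    -- the functional on `R^a` given by `v` vanishes on `ker e`
    let l : (Fin a → R) →ₗ[R] R :=
      { toFun := fun c => ∑ i, c i * v i
        map_add' := fun x y => by simp [add_mul, Finset.sum_add_distrib]
        map_smul' := fun r x => by
          simp only [Pi.smul_apply, smul_eq_mul, RingHom.id_apply, Finset.mul_sum]
          exact Finset.sum_congr rfl fun i _ => by ring }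
    have hl : ∀ c ∈ LinearMap.ker e, l c = 0 := by
      intro c hc
      obtain ⟨y, hy⟩ := hk ⟨c, hc⟩
      have h1 : y = ∑ j, y j • (Pi.single j (1 : R) : Fin b → R) :=
        ((Pi.basisFun R (Fin b)).sum_repr y).symm.trans (by simp)
      have h2 : c = ∑ j, y j • ((k (Pi.single j 1)) : Fin a → R) := by
        calc c = ((k y : LinearMap.ker e) : Fin a → R) := (congrArg Subtype.val hy).symm
          _ = ((k (∑ j, y j • (Pi.single j (1 : R) : Fin b → R)) : LinearMap.ker e) :
              Fin a → R) := by rw [← h1]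
          _ = _ := by
            rw [map_sum, Submodule.coe_sum]
            exact Finset.sum_congr rfl fun j _ => by rw [map_smul, Submodule.coe_smul]
      rw [h2, map_sum]
      refine Finset.sum_eq_zero fun j _ => ?_
      rw [map_smul]
      have := congrFun (LinearMap.mem_ker.1 hv) j
      change ∑ i, (k (Pi.single j 1) : Fin a → R) i * v i = 0 at this
      change y j • (∑ i, (k (Pi.single j 1) : Fin a → R) i * v i) = 0
      rw [this, smul_zero]
    let l' : Module.Dual R (Module.Dual R M) := (LinearMap.ker e).liftQ l hl ∘ₗ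
      (e.quotKerEquivOfSurjective he).symm.toLinearMap
    have hl' : ∀ c, l' (e c) = l c := by
      intro c
      have h1 : (e.quotKerEquivOfSurjective he).symm (e c) = Submodule.Quotient.mk c := by
        rw [LinearEquiv.symm_apply_eq]
        rfl
      change (LinearMap.ker e).liftQ l hl ((e.quotKerEquivOfSurjective he).symm (e c)) = l c
      rw [h1]
      rfl
    obtain ⟨m, hm⟩ := (Module.IsReflexive.bijective_dual_eval' (R := R) (M := M)).2 l'
    refine ⟨m, ?_⟩
    funext i
    have h1 : l' (e (Pi.single i 1)) = e (Pi.single i 1) m := by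
      rw [← hm]
      rfl
    change e (Pi.single i 1) m = v i
    rw [← h1, hl']
    change ∑ i', (Pi.single i 1 : Fin a → R) i' * v i' = v i
    rw [Finset.sum_eq_single i]
    · simp
    · intro j _ hj
      rw [Pi.single_eq_of_ne hj, zero_mul]
    · simp

end reflexive

end Pool.Agent.TH182.NC
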