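import Pool.Agent.TH182.NC.Reg
import Pool.Agent.TH350.J290

/-!
The trace form, the rigidity lemma and the Euler connection for modules over
`ℂ[x, y, z, w] / (w⁴ + x³ + y³ + z³)`, up to elements of `ℂ[x, y, z]` which do not vanish at the
origin.
-/

set_option autoImplicit false

namespace Pool.Agent.TH182.NC

open Pool.Agent.TH215.TM MvPolynomial Pool.Agent.TH350.Conn Pool.Agent.TH350.J290

section

variable (M : Type) [AddCommGroup M] [Module S3 M] (φ : Module.End S3 M)

theorem tr4_smul (r : S3) (a : Module.End S3 M) : tr4 φ (r • a) = r • tr4 φ a := by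
  simp only [tr4, Finset.smul_sum, mul_smul_comm, smul_mul_assoc]

/-- the transported connection -/
theorem exists_conn (D : Derivation ℂ S3 S3) (s : S3) (hs : Fac S3 M s) :
    ∃ N : M →+ M, ∀ (a : S3) (v : M), N (a • v) = (s * D a) • v + a • N v := by
  obtain ⟨F, _, _, _, q, p, hpq⟩ := hs
  obtain ⟨N0, hN0⟩ := exists_connection D F
  refine ⟨p.toAddMonoidHom.comp (N0.comp q.toAddMonoidHom), fun a v => ?_⟩
  change p (N0 (q (a • v))) = _ + a • p (N0 (q v))
  rw [map_smul, hN0, map_add, map_smul, map_smul, hpq, smul_smul, mul_comm (D a)]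

theorem trace_of_fac (hφ : φ ^ 4 = -(g3 • (1 : Module.End S3 M))) (s : S3) (hs : Fac S3 M s)
    (i : Fin 3) : ∃ a : Module.End S3 M, tr4 φ a = (s * X i ^ 2 : S3) • 1 := by
  obtain ⟨N, hN⟩ := exists_conn M (pderiv i) s hs
  have h1 := comm_trace (fun a : S3 => s * pderiv i a) N hN φ 4 g3 hφ
  have hD : (MvPolynomial.pderiv i) g3 = (C 3 : S3) * MvPolynomial.X i ^ 2 := by
    unfold g3
    fin_cases i <;> simp [Derivation.leibniz_pow, pderiv_X] <;> rfl
  refine ⟨(C (-(1 / 3)) : S3) • comm (fun a : S3 => s * pderiv i a) N hN φ, ?_⟩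
  rw [tr4_smul]
  change _ • ∑ j ∈ Finset.range 4, φ ^ j * comm (fun a : S3 => s * pderiv i a) N hN φ *
    φ ^ (4 - 1 - j) = _
  rw [h1, hD, smul_neg, smul_smul, ← neg_smul]
  congr 1
  have h2 : (C (-(1 / 3)) : S3) * C 3 = -1 := by
    rw [← C_mul]
    norm_num
  linear_combination (-(s * X i ^ 2)) * h2

theorem tr4_mul_sub (a c : Module.End S3 M) :
    tr4 φ a * c - a * tr4 φ c =
      φ * (φ ^ 2 * a * c + φ * a * φ * c + φ * a * c * φ + a * φ ^ 2 * c + a * φ * c * φ +
        a * c * φ ^ 2) - (φ ^ 2 * a * c + φ * a * φ * c + φ * a * c * φ + a * φ ^ 2 * c +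
        a * φ * c * φ + a * c * φ ^ 2) * φ := by
  simp only [tr4, Finset.sum_range_succ, Finset.sum_range_zero, pow_zero, one_mul, mul_one,
    pow_one, zero_add, Nat.sub_zero, Nat.sub_self, show 3 - 1 = 2 from rfl,
    show 3 - 2 = 1 from rfl]
  noncomm_ring

/-- **rigidity** -/
theorem rig (hM : Reg2 (X 0 : S3) (X 1) M)
    (hK : Reg3 (X 0 : S3) (X 1) (X 2) (Subalgebra.centralizer S3 ({φ} : Set (Module.End S3 M))))
    (s : Fin 3 → S3) (n : Fin 3 → ℕ)
    (ha : ∀ i, ∃ a : Module.End S3 M, tr4 φ a = (s i * X i ^ n i : S3) • 1)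
    (u : Module.End S3 M) (hu : tr4 φ u = 0) :
    ∃ b : Module.End S3 M, (s 0 * s 1 * s 2) • u = φ * b - b * φ := by
  let f : Module.End S3 M →ₗ[S3] Module.End S3 M :=
    LinearMap.mulLeft S3 φ - LinearMap.mulRight S3 φ
  have hf : ∀ b, f b = φ * b - b * φ := fun b => rfl
  let e : LinearMap.ker f ≃ₗ[S3] Subalgebra.centralizer S3 ({φ} : Set (Module.End S3 M)) :=
    { toFun := fun b => ⟨b.1, by
        rw [Subalgebra.mem_centralizer_iff]
        rintro g rfl
        have := LinearMap.mem_ker.1 b.2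
        rw [hf] at this
        exact sub_eq_zero.1 this⟩
      map_add' := fun a b => rfl
      map_smul' := fun a b => rfl
      invFun := fun b => ⟨b.1, by
        rw [LinearMap.mem_ker, hf]
        exact sub_eq_zero.2 ((Subalgebra.mem_centralizer_iff S3).1 b.2 φ rfl)⟩
      left_inv := fun b => rfl
      right_inv := fun b => rfl }
  obtain ⟨b, hb⟩ := mem_range_of_powers (fun i => (X i : S3)) f (hM.hom M) (hK.of_equiv e)
    (fun t ht => (hM.hom M).1 t ht) s n u (fun i => by
      obtain ⟨a, ha⟩ := ha i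
      have h1 := tr4_mul_sub M φ a u
      rw [hu, mul_zero, sub_zero, ha, smul_mul_assoc, one_mul] at h1
      exact ⟨_, by rw [hf, h1]⟩)
  exact ⟨b, by rw [← hf, hb]⟩

/-- **the Euler connection** -/
theorem exists_nabla (hφ : φ ^ 4 = -(g3 • (1 : Module.End S3 M)))
    (hM : Reg2 (X 0 : S3) (X 1) M)
    (hK : Reg3 (X 0 : S3) (X 1) (X 2) (Subalgebra.centralizer S3 ({φ} : Set (Module.End S3 M))))
    (s : Fin 3 → S3) (n : Fin 3 → ℕ) (hF : ∀ i, Fac S3 M (s i * X i ^ n i)) (t : S3)
    (hrig : ∀ u : Module.End S3 M, tr4 φ u = 0 → ∃ b : Module.End S3 M,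
      t • u = φ * b - b * φ) :
    ∃ N : M →+ M, (∀ (a : S3) (v : M), N (a • v) = ((s 0 * s 1 * s 2 * t) * E a) • v + a • N v) ∧
      ∀ v, N (φ v) = φ (N v) + (C (3 / 4) * (s 0 * s 1 * s 2 * t) : S3) • φ v := by
  let J : Set S3 := {r | ∃ N : M →+ M, (∀ (a : S3) (v : M), N (a • v) = (r * E a) • v + a • N v) ∧
      ∀ v, N (φ v) = φ (N v) + (C (3 / 4) * r : S3) • φ v}
  have hinj : ∀ a b : M, (X 0 : S3) • a = (X 0 : S3) • b → a = b := fun a b hab => by
    rw [← sub_eq_zero]
    exact hM.1 _ (by rw [smul_sub, hab, sub_self])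
  have key := saturate (fun i => (X i : S3)) J ?_ ?_ s n t ?_
  · exact key
  · rintro a r ⟨N, hN1, hN2⟩
    refine ⟨a • N, fun b v => ?_, fun v => ?_⟩
    · rw [AddMonoidHom.smul_apply, AddMonoidHom.smul_apply, hN1, smul_eq_mul]
      module
    · rw [AddMonoidHom.smul_apply, AddMonoidHom.smul_apply, hN2, smul_eq_mul, map_smul]
      module
  · intro r hr
    choose c hc1 hc2 using hr
    -- the centralizer, as a submodule of the additive endomorphisms
    let inc : Subalgebra.centralizer S3 ({φ} : Set (Module.End S3 M)) →ₗ[S3] (M →+ M) :=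
      { toFun := fun k => k.1.toAddMonoidHom
        map_add' := fun a b => rfl
        map_smul' := fun a b => rfl }
    have hinc : Function.Injective inc := by
      intro a b hab
      apply Subtype.ext
      ext v
      exact DFunLike.congr_fun hab v
    have hKr : Reg3 (X 0 : S3) (X 1) (X 2) (LinearMap.range inc) :=
      hK.of_equiv (LinearEquiv.ofInjective inc hinc).symm
    obtain ⟨h, hh⟩ := descent (fun i => (X i : S3)) (hM.addHom M) (LinearMap.range inc) hKr c
      (fun i j => by
        let k : Module.End S3 M :=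
          { toFun := fun v => (X i : S3) • c j v - (X j : S3) • c i v
            map_add' := fun a b => by simp only [map_add, smul_add]; abel
            map_smul' := fun a b => by
              simp only [hc1, smul_eq_mul, RingHom.id_apply]
              module }
        refine ⟨⟨k, ?_⟩, ?_⟩
        · rw [Subalgebra.mem_centralizer_iff]
          rintro g rfl
          ext v
          change g ((X i : S3) • c j v - (X j : S3) • c i v) =
            (X i : S3) • c j (g v) - (X j : S3) • c i (g v)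
          simp only [hc2, map_sub, map_smul, smul_eq_mul]
          module
        · ext v
          rfl)
    obtain ⟨k, hk⟩ := hh 0
    have hk' : ∀ v, c 0 v = (X 0 : S3) • h v + k.1 v := by
      intro v
      have := DFunLike.congr_fun hk v
      change k.1 v = c 0 v - (X 0 : S3) • h v at this
      rw [this]
      abel
    have hkφ : ∀ v, k.1 (φ v) = φ (k.1 v) := by
      intro v
      have := (Subalgebra.mem_centralizer_iff S3).1 k.2 φ rfl
      exact (LinearMap.congr_fun this v).symm
    refine ⟨h, fun a v => ?_, fun v => ?_⟩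
    · apply hinj
      have h1 := hk' (a • v)
      have h2 := hk' v
      rw [hc1, h2, k.1.map_smul, smul_eq_mul] at h1
      rw [← sub_eq_zero] at h1 ⊢
      rw [← neg_eq_zero, ← h1]
      module
    · apply hinj
      have h1 := hk' (φ v)
      have h2 := hk' v
      rw [hc2, h2, hkφ, map_add, φ.map_smul, smul_eq_mul] at h1
      rw [← sub_eq_zero] at h1 ⊢
      rw [← neg_eq_zero, ← h1]
      module
  · intro i
    obtain ⟨N, hN⟩ := exists_conn M E _ (hF i)
    set r := s i * X i ^ n i with hr
    set eps := comm (fun a => r * E a) N hN φ with heps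
    have htr := comm_trace (fun a => r * E a) N hN φ 4 g3 hφ
    have h1 : tr4 φ (eps - (C (3 / 4) * r : S3) • φ) = 0 := by
      have h2 : tr4 φ eps = -((r * E g3) • (1 : Module.End S3 M)) := htr
      have h3 : tr4 φ (eps - (C (3 / 4) * r : S3) • φ) =
          tr4 φ eps - ((C (3 / 4) * r : S3) * 4) • φ ^ 4 := by
        simp only [tr4, Finset.sum_range_succ, Finset.sum_range_zero, pow_zero, one_mul, mul_one,
          pow_one, zero_add, Nat.sub_zero, Nat.sub_self, show 3 - 1 = 2 from rfl,
          show 3 - 2 = 1 from rfl, mul_sub, sub_mul, mul_smul_comm, smul_mul_assoc]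
        have a1 : φ * φ ^ 3 = φ ^ 4 := by noncomm_ring
        have a2 : φ * φ * φ ^ 2 = φ ^ 4 := by noncomm_ring
        have a3 : φ ^ 2 * φ * φ = φ ^ 4 := by noncomm_ring
        have a4 : φ ^ 3 * φ = φ ^ 4 := by noncomm_ring
        rw [a1, a2, a3, a4]
        module
      have h4 : (C (3 / 4) : S3) * 4 = 3 := by
        rw [← map_ofNat (C : ℂ →+* S3) 4, ← C_mul, ← map_ofNat (C : ℂ →+* S3) 3]
        norm_num
      rw [h3, h2, hφ, E_g3, show (C (3 / 4) * r : S3) * 4 = (C (3 / 4) * 4) * r by ring, h4]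
      module
    obtain ⟨b, hb⟩ := hrig _ h1
    refine ⟨t • N + b.toAddMonoidHom, ?_, ?_⟩
    · intro a x
      change t • N (a • x) + b (a • x) = _ + a • (t • N x + b x)
      rw [hN, map_smul, smul_eq_mul]
      module
    · intro x
      change t • N (φ x) + b (φ x) = φ (t • N x + b x) + (C (3 / 4 : ℂ) * (r • t) : S3) • φ x
      have h2 := LinearMap.congr_fun hb x
      change t • ((N (φ x) - φ (N x)) - (C (3 / 4 : ℂ) * r : S3) • φ x) = φ (b x) - b (φ x) at h2
      rw [map_add, map_smul, smul_eq_mul, ← sub_eq_zero]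
      rw [← sub_eq_zero] at h2
      rw [← h2]
      module

end

end Pool.Agent.TH182.NC
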