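import Pool.Agent.TH182.NC.Rig
import Pool.Agent.TH228.J1023
import Pool.Agent.TH73.NC_chain

/-!
Symmetries `τ` with `τ φ = -i φ τ`, and an element of the image of the trace form which does not
vanish at the origin.
-/

set_option autoImplicit false

namespace Pool.Agent.TH182.NC

open Pool.Agent.TH215.TM MvPolynomial Pool.Agent.TH350.Conn Pool.Agent.TH350.J290

/-- polynomials which do not vanish at the origin -/
def W : Submonoid S3 where
  carrier := {t | constantCoeff t ≠ 0}
  one_mem' := by simp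
  mul_mem' := fun {a b} ha hb => by
    change constantCoeff (a * b) ≠ 0
    rw [map_mul]
    exact mul_ne_zero ha hb

theorem mem_W {t : S3} : t ∈ W ↔ constantCoeff t ≠ 0 := Iff.rfl

theorem mem_mS {t : S3} : t ∈ mS ↔ constantCoeff t = 0 := by
  unfold mS
  rw [← Set.image_univ, mem_ideal_span_X_image]
  constructor
  · intro h
    rw [constantCoeff_eq]
    by_contra h0
    obtain ⟨i, _, hi⟩ := h 0 (by rwa [mem_support_iff])
    simp at hi
  · intro h m hm
    by_contra hcon
    push Not at hcon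
    have : m = 0 := by
      ext i
      exact hcon i trivial
    rw [this, mem_support_iff, ← constantCoeff_eq] at hm
    exact hm h

/-- an inverse modulo a power of the ideal of the origin -/
theorem exists_inv {t : S3} (ht : t ∈ W) (k : ℕ) : ∃ u : S3, u * t - 1 ∈ mS ^ k := by
  have ht' : constantCoeff t ≠ 0 := ht
  have h1 : 1 - C (constantCoeff t)⁻¹ * t ∈ mS := by
    rw [mem_mS, map_sub, map_one, map_mul, constantCoeff_C, inv_mul_cancel₀ ht', sub_self]
  set m := 1 - C (constantCoeff t)⁻¹ * t with hm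
  refine ⟨(∑ i ∈ Finset.range k, m ^ i) * C (constantCoeff t)⁻¹, ?_⟩
  have h2 : (∑ i ∈ Finset.range k, m ^ i) * C (constantCoeff t)⁻¹ * t - 1 = - m ^ k := by
    have h3 := geom_sum_mul_neg m k
    have h4 : C (constantCoeff t)⁻¹ * t = 1 - m := by rw [hm]; ring
    rw [mul_assoc, h4, h3]
    ring
  rw [h2]
  exact (mS ^ k).neg_mem (Ideal.pow_mem_pow h1 k)

section lift

variable {S : Type} [CommRing S] (M : Type) [AddCommGroup M] [Module S M]

theorem lift_of (I : Ideal S) (φ : Module.End S M) (ζ : S) (k₁ k : ℕ) (hk : k₁ ≤ k)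
    (hAR : ∀ T : M →ₗ[S] M ⧸ (I ^ k₁ • ⊤ : Submodule S M),
      (∀ v w : M, T v = Submodule.Quotient.mk w → T (φ v) = Submodule.Quotient.mk (ζ • φ w)) →
      ∃ τ : Module.End S M, τ * φ = ζ • (φ * τ) ∧
        ∀ v w : M, T v = Submodule.Quotient.mk w → τ v - w ∈ (I • ⊤ : Submodule S M))
    (T : Module.End S (M ⧸ (I ^ k • ⊤ : Submodule S M)))
    (hT : ∀ v w : M, T (Submodule.Quotient.mk v) = Submodule.Quotient.mk w →
      T (Submodule.Quotient.mk (φ v)) = Submodule.Quotient.mk (ζ • φ w)) :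
    ∃ τ : Module.End S M, τ * φ = ζ • (φ * τ) ∧
        ∀ v w : M, T (Submodule.Quotient.mk v) = Submodule.Quotient.mk w →
          τ v - w ∈ (I • ⊤ : Submodule S M) := by
  have hle : (I ^ k • ⊤ : Submodule S M) ≤ I ^ k₁ • ⊤ :=
    Submodule.smul_mono_left (Ideal.pow_le_pow_right hk)
  obtain ⟨τ, h1, h2⟩ := hAR (Submodule.factor hle ∘ₗ T ∘ₗ (I ^ k • ⊤ : Submodule S M).mkQ) (by
    intro v w hvw
    obtain ⟨w0, hw0⟩ := Submodule.Quotient.mk_surjective _ (T (Submodule.Quotient.mk v))
    have h3 := hT v w0 hw0.symm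
    change Submodule.factor hle (T (Submodule.Quotient.mk v)) = _ at hvw
    change Submodule.factor hle (T (Submodule.Quotient.mk (φ v))) = _
    rw [← hw0] at hvw
    rw [h3]
    change Submodule.Quotient.mk w0 = Submodule.Quotient.mk w at hvw
    change Submodule.Quotient.mk (ζ • φ w0) = Submodule.Quotient.mk (ζ • φ w)
    rw [Submodule.Quotient.eq] at hvw ⊢
    rw [← smul_sub, ← map_sub]
    refine Submodule.smul_mem _ _ ?_
    have h4 : (I ^ k₁ • ⊤ : Submodule S M).map φ ≤ I ^ k₁ • ⊤ := by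
      rw [Submodule.map_smul'']
      exact Submodule.smul_mono le_rfl le_top
    exact h4 ⟨_, hvw, rfl⟩)
  refine ⟨τ, h1, fun v w hvw => h2 v w ?_⟩
  change Submodule.factor hle (T (Submodule.Quotient.mk v)) = _
  rw [hvw]
  rfl

/-- an endomorphism congruent to one is invertible up to an element congruent to one -/
theorem exists_quasi_inv [Module.Finite S M] (I : Ideal S) (u : Module.End S M)
    (hu : ∀ v, u v - v ∈ (I • ⊤ : Submodule S M)) :
    ∃ s : S, s - 1 ∈ I ∧ ∃ v : Module.End S M, u * v = s • 1 ∧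
      ∀ a : Module.End S M, a * u = u * a → a * v = v * a := by
  obtain ⟨p, hp1, -, hp2, hp3⟩ :=
    LinearMap.exists_monic_and_natDegree_eq_and_coeff_mem_pow_and_aeval_eq_zero S (1 - u) I (by
      rintro _ ⟨v, rfl⟩
      rw [LinearMap.sub_apply, Module.End.one_apply, ← neg_sub]
      exact Submodule.neg_mem _ (hu v))
  -- `q(X) = p(1 - X)`
  set q : Polynomial S := p.comp (1 - Polynomial.X) with hq
  have hq1 : Polynomial.aeval u q = 0 := by
    rw [hq, Polynomial.aeval_comp, map_sub, map_one, Polynomial.aeval_X, hp3]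
  have hq0 : q.coeff 0 - 1 ∈ I := by
    have h1 : q.coeff 0 = p.eval 1 := by
      rw [Polynomial.coeff_zero_eq_eval_zero, hq, Polynomial.eval_comp]
      simp
    rw [h1, Polynomial.eval_eq_sum_range, Finset.sum_range_succ, ← Polynomial.leadingCoeff, hp1]
    simp only [one_pow, mul_one, add_sub_cancel_right]
    refine Ideal.sum_mem _ fun i hi => ?_
    have h2 := hp2 i
    have h3 := Finset.mem_range.1 hi
    exact Ideal.pow_le_self (by omega) h2
  refine ⟨q.coeff 0, hq0, -Polynomial.aeval u q.divX, ?_, fun a ha => ?_⟩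
  · have h1 := congrArg (Polynomial.aeval u) (Polynomial.X_mul_divX_add q)
    rw [map_add, map_mul, Polynomial.aeval_X, Polynomial.aeval_C, hq1] at h1
    rw [mul_neg]
    rw [Algebra.algebraMap_eq_smul_one] at h1
    exact (eq_neg_of_add_eq_zero_right h1).symm
  · rw [mul_neg, neg_mul]
    congr 1
    have h1 : u ∈ Subalgebra.centralizer S ({a} : Set (Module.End S M)) := by
      rw [Subalgebra.mem_centralizer_iff]
      rintro g rfl
      exact ha
    have h2 : Polynomial.aeval u q.divX ∈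
        Subalgebra.centralizer S ({a} : Set (Module.End S M)) :=
      Algebra.adjoin_le (Set.singleton_subset_iff.2 h1)
        (Polynomial.aeval_mem_adjoin_singleton S u)
    exact (Subalgebra.mem_centralizer_iff S).1 h2 a rfl

end lift

section

variable (M : Type) [AddCommGroup M] [Module S3 M] [Module.Finite S3 M] (φ : Module.End S3 M)

theorem exists_tau_rho (t : S3) (ht : t ∈ W) (N : M →+ M)
    (hN : ∀ (a : S3) (v : M), N (a • v) = (t * E a) • v + a • N v)
    (hNφ : ∀ v, N (φ v) = φ (N v) + (C (3 / 4) * t : S3) • φ v) :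
    ∃ s ∈ W, ∃ τ ρ : Module.End S3 M, τ * φ = (C (-Complex.I) : S3) • (φ * τ) ∧
      ρ * φ = (C Complex.I : S3) • (φ * ρ) ∧ τ * ρ = s • (1 : Module.End S3 M) := by
  obtain ⟨k₁, -, hk₁⟩ := Pool.Agent.TH228.J1023.artinRees M mS φ (C (-Complex.I) : S3)
  obtain ⟨k₂, -, hk₂⟩ := Pool.Agent.TH228.J1023.artinRees M mS φ (C Complex.I : S3)
  set k := max k₁ k₂ with hk
  obtain ⟨u, hu⟩ := exists_inv ht k
  let _ : Module ℂ M := Module.compHom M (algebraMap ℂ S3)
  have hC : ∀ (c : ℂ) (v : M), c • v = (C c : S3) • v := fun c v => rfl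
  have _ : IsScalarTower ℂ S3 M := ⟨fun c s v => by
    rw [hC, MvPolynomial.smul_eq_C_mul, mul_smul]⟩
  have hfin := finite_quot M k
  set V := (mS ^ k • ⊤ : Submodule S3 M) with hV
  have hNV : ∀ x ∈ V, N x ∈ V := by
    intro x hx
    refine Submodule.smul_induction_on hx ?_ ?_
    · intro r hr n _
      rw [hN, mul_smul]
      exact Submodule.add_mem _ (Submodule.smul_mem _ _
        (Submodule.smul_mem_smul (E_mem hr) trivial)) (Submodule.smul_mem_smul hr trivial)
    · intro x y hx hy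
      rw [map_add]
      exact Submodule.add_mem _ hx hy
  have hEC : ∀ c : ℂ, E (C c : S3) = 0 := fun c => E.map_algebraMap c
  -- the operator on the quotient
  let NC : M →ₗ[ℂ] M :=
    { toFun := fun x => u • N x
      map_add' := fun a b => by rw [map_add, smul_add]
      map_smul' := fun c x => by
        rw [hC, hN, hEC, mul_zero, zero_smul, zero_add, RingHom.id_apply, hC, smul_comm] }
  let Nq0 : (M ⧸ V.restrictScalars ℂ) →ₗ[ℂ] (M ⧸ V.restrictScalars ℂ) :=
    Submodule.mapQ _ _ NC (fun x hx => V.smul_mem u (hNV x hx))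
  let Nk : (M ⧸ V) →ₗ[ℂ] (M ⧸ V) := (Submodule.Quotient.restrictScalarsEquiv ℂ V).toLinearMap ∘ₗ
    Nq0 ∘ₗ (Submodule.Quotient.restrictScalarsEquiv ℂ V).symm.toLinearMap
  have hNk : ∀ x : M, Nk (V.mkQ x) = V.mkQ (u • N x) := fun x => rfl
  have hφV : ∀ x ∈ V, φ x ∈ V := by
    intro x hx
    have : V.map φ ≤ V := by
      rw [hV, Submodule.map_smul'']
      exact Submodule.smul_mono le_rfl le_top
    exact this ⟨x, hx, rfl⟩
  let φk : Module.End S3 (M ⧸ V) := Submodule.mapQ V V φ hφV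
  have hφk : ∀ x, φk (V.mkQ x) = V.mkQ (φ x) := fun x => rfl
  have hut : ∀ x : M, V.mkQ ((u * t) • x) = V.mkQ x := by
    intro x
    rw [← sub_eq_zero, ← map_sub, Submodule.mkQ_apply, Submodule.Quotient.mk_eq_zero]
    have : (u * t) • x - x = (u * t - 1) • x := by rw [sub_smul, one_smul]
    rw [this]
    exact Submodule.smul_mem_smul hu trivial
  obtain ⟨T, T', hTT', hT'T, hTφ⟩ := exists_TS (M ⧸ V) Nk φk (by
      intro i v
      obtain ⟨w, rfl⟩ := V.mkQ_surjective v
      change V.mkQ (u • N ((X i : S3) • w)) = (X i : S3) • V.mkQ (u • N w) + (X i : S3) • V.mkQ w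
      rw [hN, E_X, smul_add, map_add, smul_smul, ← mul_assoc, mul_smul, hut, smul_comm u (X i),
        V.mkQ.map_smul, V.mkQ.map_smul, add_comm])
    (by
      intro v
      obtain ⟨w, rfl⟩ := V.mkQ_surjective v
      rw [hφk, hNk, hNk, hNφ, hφk, smul_add, map_add, φ.map_smul u, smul_smul,
        show u * (C (3 / 4) * t) = (u * t) * C (3 / 4) by ring, mul_smul, hut]
      rfl)
  have hT'φ : ∀ v, T' (φk v) = (C Complex.I : S3) • φk (T' v) := by
    intro v
    have h1 := hTφ (T' v)
    rw [hTT'] at h1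
    have h2 := congrArg T' h1
    rw [hT'T, T'.map_smul] at h2
    rw [h2, smul_smul, ← C_mul]
    simp
  have hTm : ∀ (Z : Module.End S3 (M ⧸ V)) (c : S3), (∀ v, Z (φk v) = c • φk (Z v)) →
      ∀ v w : M, Z (Submodule.Quotient.mk v) = Submodule.Quotient.mk w →
        Z (Submodule.Quotient.mk (φ v)) = Submodule.Quotient.mk (c • φ w) := by
    intro Z c hZ v w hvw
    have h1 := hZ (V.mkQ v)
    rw [hφk] at h1
    change Z (Submodule.Quotient.mk (φ v)) = c • φk (Z (Submodule.Quotient.mk v)) at h1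
    rw [h1, hvw]
    rfl
  obtain ⟨τ, hτ1, hτ2⟩ := lift_of M mS φ (C (-Complex.I) : S3) k₁ k (le_max_left _ _) hk₁ T
    (hTm T _ hTφ)
  obtain ⟨σ, hσ1, hσ2⟩ := lift_of M mS φ (C Complex.I : S3) k₂ k (le_max_right _ _) hk₂ T'
    (hTm T' _ hT'φ)
  have h1 : ∀ v, (τ * σ) v - v ∈ (mS • ⊤ : Submodule S3 M) := by
    intro v
    obtain ⟨w, hw⟩ := Submodule.Quotient.mk_surjective _ (T' (Submodule.Quotient.mk v))
    have e1 := hσ2 v w hw.symm
    have e2 := hτ2 w v (by rw [hw, hTT'])
    have e3 : τ (σ v - w) ∈ (mS • ⊤ : Submodule S3 M) := by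
      have h4 : (mS • ⊤ : Submodule S3 M).map τ ≤ mS • ⊤ := by
        rw [Submodule.map_smul'']
        exact Submodule.smul_mono le_rfl le_top
      exact h4 ⟨_, e1, rfl⟩
    have e4 : (τ * σ) v - v = τ (σ v - w) + (τ w - v) := by
      rw [map_sub, Module.End.mul_apply]
      abel
    rw [e4]
    exact Submodule.add_mem _ e3 e2
  obtain ⟨s, hs, v, hv1, hv2⟩ := exists_quasi_inv M mS (τ * σ) h1
  refine ⟨s, ?_, τ, σ * v, hτ1, ?_, ?_⟩
  · rw [mem_mS, map_sub, map_one] at hs
    rw [mem_W, sub_eq_zero.1 hs]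
    exact one_ne_zero
  · have h2 : φ * (τ * σ) = τ * σ * φ := by
      rw [mul_assoc, hσ1, mul_smul_comm, ← mul_assoc, ← mul_assoc, hτ1, smul_mul_assoc, smul_smul,
        ← C_mul]
      simp
    rw [mul_assoc, ← hv2 φ h2, ← mul_assoc, hσ1, smul_mul_assoc, mul_assoc]
  · rw [← mul_assoc, hv1]

end

end Pool.Agent.TH182.NC
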